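import Pool.Agent.helper11.SetData

set_option autoImplicit false

/-! Prescribed sets of sequential parameters: arbitrarily large graphs, with an explicit bound. -/

namespace Pool.Agent.helper14.HS

open Finset Pool.Agent.helper11.Seq

lemma exists_q' (m q : ℕ) (h : m + 30 ≤ q) : 1000 * ((m + 3) * (q + 1)) ≤ 2 ^ q := by
  induction q, h using Nat.le_induction with
  | base => exact exists_q m
  | succ q hq ih =>
    rw [pow_succ]
    nlinarith

theorem realise_q (p m : ℕ) (hp : 1 ≤ p) (hpm : p ≤ m) (d : ℕ → ℕ)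
    (hd : ∀ i, p ≤ i → i < m → 1 ≤ d i ∧ d i ≤ 2 * m)
    (hd1 : ∀ i, p ≤ i → i < m → i + 1 ≤ d i)
    (hd2 : ∀ i i', p ≤ i → i < m → p ≤ i' → i' < m → d i + i' = d i' + i → i = i')
    (q : ℕ) (hmq : m + 30 ≤ q) :
    ∃ (V : Type) (_ : Fintype V) (G : SimpleGraph V), G.Connected ∧
      (2 ^ q ≤ Fintype.card V ∧ Fintype.card V + G.edgeSet.ncard ≤ 32 ^ q) ∧
      ∀ k, 1 ≤ k → ((p ≤ k ∧ k ≤ m ∧ ∀ i, p ≤ i → i < k → d i + p ≤ i + k) ↔
        ∃ f : V → ℕ, IsSeq G k f) := by
  have hq := exists_q' m q hmq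
  set L := 2 ^ q with hL
  have hexp : 1000 * ((m + 3) * (q + 1)) = 1000 * (m * q) + 1000 * m + 3000 * q + 3000 := by ring
  have hmq' : 0 ≤ m * q := Nat.zero_le _
  have hL3 : 3000 ≤ L := by omega
  have hL5 : 1000 * m ≤ L := by omega
  let P : Par :=
    { p := p, m := m, L := L, ρ := L ^ 3, K := L, d := d, hp := hp, hpm := hpm
      hL := by omega
      hK := by omega
      hρ := by
        have h1 : 3000 * (L * L) ≤ L ^ 3 := by
          rw [show L ^ 3 = L * (L * L) by ring]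
          exact Nat.mul_le_mul_right _ hL3
        have h2 : 3000 * L ≤ L * L := Nat.mul_le_mul_right _ hL3
        have h3 : (L + 25) * (L + 1) = L * L + 26 * L + 25 := by ring
        rw [h3]
        omega
      hd := hd }
  have hh : 2 * P.m + 2 * (L / 8) + 9 + L / 2 ≤ P.L := by
    change 2 * m + 2 * (L / 8) + 9 + L / 2 ≤ L
    omega
  obtain ⟨X, hX1, hX2⟩ := P.exists_good (L / 8) (L / 2) hh (P.numer q rfl hq rfl rfl)
  refine ⟨P.V, inferInstance, gr P.D (P.ends X), P.connected X hX1, ⟨?_, ?_⟩, ?_⟩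
  · rw [P.card_V]
    change L ≤ _
    have : P.L = L := rfl
    omega
  · rw [ncard_gr (P.ends_ne X) (P.ends_inj X)]
    have h1 := P.card_total
    have h2 := P.b_R
    have hr := P.r_def
    have e1 : P.L = L := rfl
    have e2 : P.ρ = L ^ 3 := rfl
    have e3 : P.m = m := rfl
    rw [hr, e1, e2, e3] at h2
    have h3 : Fintype.card P.V + P.D.card ≤ P.b P.R + 1 := by omega
    have h4 : P.b P.R + 1 = 12 * L ^ 4 + 18 * L ^ 3 + 4 * L + 2 * m + 6 := by
      rw [h2]
      ring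
    have h5 : (32 : ℕ) ^ q = L ^ 5 := by
      rw [hL, ← pow_mul, mul_comm q 5, pow_mul]
      norm_num
    rw [h5]
    rw [h4] at h3
    have e3 : 18 * L ^ 3 ≤ L ^ 4 := by
      rw [show L ^ 4 = L * L ^ 3 by ring]
      exact Nat.mul_le_mul_right _ (by omega)
    have e1 : 4 * L + 2 * m + 6 ≤ L ^ 4 := by
      have : L * 3000 ≤ L * L ^ 3 := Nat.mul_le_mul_left _ (hL3.trans (Nat.le_self_pow (by norm_num) L))
      rw [show L ^ 4 = L * L ^ 3 by ring]
      omega
    have e5 : 14 * L ^ 4 ≤ L ^ 5 := by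
      rw [show L ^ 5 = L * L ^ 4 by ring]
      exact Nat.mul_le_mul_right _ (by omega)
    omega
  · intro k hk
    constructor
    · rintro ⟨h1, h2, h3⟩
      refine ⟨P.f k, P.planted X k h1 h2 ?_ ?_⟩
      · intro i hi1 hi2
        exact ⟨hd1 i hi1 (lt_of_lt_of_le hi2 h2), h3 i hi1 hi2⟩
      · intro i i' a1 a2 a3 a4 a5
        exact hd2 i i' a1 (lt_of_lt_of_le a2 h2) a3 (lt_of_lt_of_le a4 h2) a5
    · rintro ⟨g, hg⟩
      obtain ⟨lam, c, hA, hB, hU⟩ := hX2 k g hg hk
      exact P.final X k hk g hg lam c hA hB hU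

theorem nonempty_q (S : Finset ℕ) (hS : ∀ k ∈ S, 1 ≤ k) (hne : S.Nonempty) (q : ℕ)
    (hq : ∀ k ∈ S, k + 30 ≤ q) :
    ∃ (V : Type) (_ : Fintype V) (G : SimpleGraph V), G.Connected ∧
      (2 ^ q ≤ Fintype.card V ∧ Fintype.card V + G.edgeSet.ncard ≤ 32 ^ q) ∧
      ∀ k, 1 ≤ k → (k ∈ S ↔ ∃ f : V → ℕ, IsSeq G k f) := by
  set p := S.min' hne with hp
  set m := S.max' hne with hm
  have hpS : p ∈ S := min'_mem _ _
  have hmS : m ∈ S := max'_mem _ _
  have hpl : ∀ s ∈ S, p ≤ s := fun s hs => min'_le _ _ hs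
  have hml : ∀ s ∈ S, s ≤ m := fun s hs => le_max' _ _ hs
  have hbl := blocks S p m hpS hmS
  choose! A hA using hbl
  have hA2 : ∀ i, p ≤ i → i < m → ∃ b ∈ S, A i ≤ i ∧ i < b ∧ ∀ s ∈ S, s ≤ A i ∨ b ≤ s :=
    fun i h1 h2 => (hA i h1 h2).2
  choose! B hB using hA2
  have hAp : ∀ i, p ≤ i → i < m → p ≤ A i := fun i h1 h2 => hpl _ (hA i h1 h2).1
  obtain ⟨V, iV, G, hG, hcard, hseq⟩ := realise_q p m (hS p hpS) (hml p hpS)
      (fun i => A i + B i - p) (by
      intro i h1 h2
      have h3 := hAp i h1 h2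
      have h4 := hB i h1 h2
      have h5 := hml _ h4.1
      omega) (by
      intro i h1 h2
      have h3 := hAp i h1 h2
      have h4 := hB i h1 h2
      omega) (by
      intro i i' h1 h2 h1' h2' heq
      have h3 := hAp i h1 h2
      have h4 := hB i h1 h2
      have h3' := hAp i' h1' h2'
      have h4' := hB i' h1' h2'
      have h5 := (hA i h1 h2).1
      have h5' := (hA i' h1' h2').1
      have k1 := h4.2.2.2 _ h5'
      have k2 := h4'.2.2.2 _ h5
      have k3 := h4.2.2.2 _ h4'.1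
      have k4 := h4'.2.2.2 _ h4.1
      omega) q (hq m hmS)
  refine ⟨V, iV, G, hG, hcard, fun k hk => ?_⟩
  rw [← hseq k hk]
  constructor
  · intro hkS
    refine ⟨hpl k hkS, hml k hkS, ?_⟩
    intro i h1 h2
    have h3 := hml k hkS
    have h4 := hB i h1 (by omega)
    have h5 := h4.2.2.2 k hkS
    have h6 := hAp i h1 (by omega)
    omega
  · rintro ⟨h1, h2, h3⟩
    by_contra hkS
    have h4 : p ≠ k := fun h => hkS (h ▸ hpS)
    have h5 : m ≠ k := fun h => hkS (h ▸ hmS)
    have h6 := hB k h1 (by omega)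
    have h7 := hA k h1 (by omega)
    have h8 := hAp k h1 (by omega)
    have h9 : A k ≠ k := fun h => hkS (h ▸ h7.1)
    have h10 := h3 (A k) h8 (by omega)
    have h11 := hB (A k) h8 (by omega)
    have h12 := h11.2.2.2 _ h7.1
    have h13 := h6.2.2.2 _ h11.1
    omega

/-- the pairs of vertices of the complete graph -/
def pairs (n : ℕ) : Finset (Fin n × Fin n) := univ.filter (fun x => x.1 < x.2)

lemma mem_pairs {n : ℕ} {x : Fin n × Fin n} : x ∈ pairs n ↔ x.1 < x.2 := by
  unfold pairs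
  rw [mem_filter]
  exact ⟨fun h => h.2, fun h => ⟨mem_univ _, h⟩⟩

lemma sum_pairs (n : ℕ) (g : Fin n → ℕ) :
    ∑ x ∈ pairs n, (g x.1 + g x.2) + ∑ i, g i = n * ∑ i, g i := by
  have h1 : ∑ x ∈ pairs n, g x.1 = ∑ i : Fin n, ∑ j : Fin n, if i < j then g i else 0 := by
    unfold pairs
    rw [sum_filter, ← univ_product_univ, sum_product]
  have h2 : ∑ x ∈ pairs n, g x.2 = ∑ i : Fin n, ∑ j : Fin n, if j < i then g i else 0 := by
    unfold pairs
    rw [sum_filter, ← univ_product_univ, sum_product_right]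
  have h3 : ∑ i : Fin n, g i = ∑ i : Fin n, ∑ j : Fin n, if j = i then g i else 0 := by
    refine sum_congr rfl fun i _ => ?_
    rw [sum_ite_eq' univ i]
    simp
  have h4 : ∀ i : Fin n, ((∑ j : Fin n, if i < j then g i else 0) +
      (∑ j : Fin n, if j < i then g i else 0)) + (∑ j : Fin n, if j = i then g i else 0) =
      n * g i := by
    intro i
    rw [← sum_add_distrib, ← sum_add_distrib]
    have : ∀ j : Fin n, ((if i < j then g i else 0) + (if j < i then g i else 0)) +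
        (if j = i then g i else 0) = g i := by
      intro j
      rcases lt_trichotomy i j with h | h | h
      · rw [if_pos h, if_neg (lt_asymm h), if_neg (ne_of_gt h)]
        omega
      · subst h
        rw [if_neg (lt_irrefl _), if_pos rfl]
        omega
      · rw [if_neg (lt_asymm h), if_pos h, if_neg (ne_of_lt h)]
        omega
    rw [sum_congr rfl fun j _ => this j, sum_const, card_univ, Fintype.card_fin, smul_eq_mul]
  calc ∑ x ∈ pairs n, (g x.1 + g x.2) + ∑ i, g i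
      = ((∑ x ∈ pairs n, g x.1) + ∑ x ∈ pairs n, g x.2) + ∑ i, g i := by rw [sum_add_distrib]
    _ = ∑ i : Fin n, (((∑ j : Fin n, if i < j then g i else 0) +
      (∑ j : Fin n, if j < i then g i else 0)) + (∑ j : Fin n, if j = i then g i else 0)) := by
        rw [sum_add_distrib, sum_add_distrib, ← h1, ← h2, ← h3]
    _ = n * ∑ i, g i := by
        rw [mul_sum]
        exact sum_congr rfl fun i _ => h4 i

lemma card_pairs (n : ℕ) : 2 * (pairs n).card + n = n * n := by
  have h := sum_pairs n (fun _ => 1)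
  rw [sum_const, sum_const, card_univ, Fintype.card_fin, smul_eq_mul, smul_eq_mul, mul_one] at h
  omega

lemma gr_pairs (n : ℕ) : gr (pairs n) id = (⊤ : SimpleGraph (Fin n)) := by
  ext u v
  rw [gr_adj, SimpleGraph.top_adj]
  constructor
  · exact fun h => h.1
  · intro h
    refine ⟨h, ?_⟩
    rcases lt_or_gt_of_ne h with h1 | h1
    · exact ⟨(u, v), mem_pairs.2 h1, Or.inl rfl⟩
    · exact ⟨(v, u), mem_pairs.2 h1, Or.inr rfl⟩

/-- the complete graph on `8t + 4` vertices has no sequential numbering at all -/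
theorem complete_none (n t k : ℕ) (hn : n = 8 * t + 4) (f : Fin n → ℕ) :
    ¬ IsSeq (gr (pairs n) id) k f := by
  intro hf
  have hne : ∀ x ∈ pairs n, (id x : Fin n × Fin n).1 ≠ (id x : Fin n × Fin n).2 := by
    intro x hx
    exact ne_of_lt (mem_pairs.1 hx)
  have hinj : ∀ x ∈ pairs n, ∀ y ∈ pairs n, s((id x : Fin n × Fin n).1, (id x : Fin n × Fin n).2) =
      s((id y : Fin n × Fin n).1, (id y : Fin n × Fin n).2) → x = y := by
    rintro ⟨a, b⟩ hx ⟨c, e⟩ hy h
    rw [mem_pairs] at hx hy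
    simp only [id] at h
    rw [Sym2.eq_iff] at h
    simp only at hx hy
    rcases h with ⟨rfl, rfl⟩ | ⟨rfl, rfl⟩
    · rfl
    · exact absurd hx (lt_asymm hy)
  obtain ⟨finj, flab, fdis, ficc⟩ := isSeq_fwd hne hinj hf
  rw [Fintype.card_fin] at ficc
  have hc := card_pairs n
  set T := n + (pairs n).card with hT
  have hTv : T = 4 * (8 * (t * t) + 9 * t + 2) + 2 := by
    have h1 : n * n = 64 * (t * t) + 64 * t + 16 := by rw [hn]; ring
    omega
  have hset : Ico k (k + T) = univ.image f ∪ (pairs n).image (fun x => lab f (id x)) := by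
    ext s
    have := ficc s
    rw [Set.mem_Icc] at this
    have e : s ∈ Ico k (k + T) ↔ (k ≤ s ∧ s ≤ k + n + (pairs n).card - 1) := by
      rw [mem_Ico]
      omega
    rw [e, this, mem_union, mem_image, mem_image]
    simp
  have hsum : ∑ s ∈ Ico k (k + T), s = ∑ v, f v + ∑ x ∈ pairs n, lab f (id x) := by
    rw [hset, sum_union, sum_image (fun a _ b _ h => finj h), sum_image]
    · intro x hx y hy h
      exact flab x hx y hy h
    · rw [disjoint_left]
      intro s hs hs'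
      obtain ⟨v, -, rfl⟩ := mem_image.1 hs
      obtain ⟨x, hx, hxt⟩ := mem_image.1 hs'
      exact fdis v x hx hxt.symm
  have h1 : ∑ s ∈ Ico k (k + T), s = T * k + ∑ i ∈ range T, i := by
    rw [sum_Ico_eq_sum_range, Nat.add_sub_cancel_left, sum_add_distrib, sum_const, card_range,
      smul_eq_mul]
  have h2 := sum_range_id_mul_two T
  have h3 : ∑ x ∈ pairs n, (f x.1 + f x.2) =
      ∑ x ∈ pairs n, lab f (id x) + 2 * ∑ x ∈ pairs n, min (f x.1) (f x.2) := by
    rw [mul_sum, ← sum_add_distrib]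
    refine sum_congr rfl fun x _ => ?_
    unfold lab
    simp only [id]
    omega
  have h4 := sum_pairs n f
  set a := 8 * (t * t) + 9 * t + 2 with ha
  have h5 : T * (T - 1) = (4 * a + 2) * (4 * a + 1) := by
    rw [hTv]
    rfl
  have h6 : (4 * a + 2) * (4 * a + 1) = 2 * (2 * (4 * (a * a) + 3 * a) + 1) := by ring
  have h7 : T * k = 2 * ((2 * a + 1) * k) := by rw [hTv]; ring
  have h8 : n * ∑ i, f i = 2 * ((4 * t + 2) * ∑ i, f i) := by
    have h9 : n = 2 * (4 * t + 2) := by omega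
    generalize ∑ i, f i = w
    rw [h9, mul_assoc]
  rw [h1, h7] at hsum
  rw [h5, h6] at h2
  rw [h8, h3] at h4
  omega

theorem empty_q (q : ℕ) (hq : 30 ≤ q) :
    ∃ (V : Type) (_ : Fintype V) (G : SimpleGraph V), G.Connected ∧
      (2 ^ q ≤ Fintype.card V ∧ Fintype.card V + G.edgeSet.ncard ≤ 32 ^ q) ∧
      ∀ k, 1 ≤ k → ((k ∈ (∅ : Finset ℕ)) ↔ ∃ f : V → ℕ, IsSeq G k f) := by
  obtain ⟨r, rfl⟩ : ∃ r, q = r + 3 := ⟨q - 3, by omega⟩
  have e0 : 8 * 2 ^ r + 4 = 2 ^ (r + 3) + 4 := by rw [pow_add]; ring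
  refine ⟨Fin (8 * 2 ^ r + 4), inferInstance, gr (pairs (8 * 2 ^ r + 4)) id, ?_, ⟨?_, ?_⟩, ?_⟩
  · rw [gr_pairs]
    exact SimpleGraph.connected_top
  · rw [Fintype.card_fin, e0]
    omega
  · rw [ncard_gr, Fintype.card_fin]
    · have hc := card_pairs (8 * 2 ^ r + 4)
      rw [e0] at hc ⊢
      set L := 2 ^ (r + 3) with hL
      have hL8 : 8 ≤ L := by
        rw [← e0]  at *
        have : 1 ≤ 2 ^ r := Nat.one_le_two_pow
        have h2 : L = 8 * 2 ^ r := by rw [hL, pow_add]; ring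
        omega
      have h5 : (32 : ℕ) ^ (r + 3) = L ^ 5 := by
        rw [hL, ← pow_mul, mul_comm (r + 3) 5, pow_mul]
        norm_num
      rw [h5]
      have h6 : (L + 4) * (L + 4) = L * L + 8 * L + 16 := by ring
      have h7 : L ^ 5 = (L * L) * (L * L) * L := by ring
      have h8 : 64 ≤ L * L := Nat.mul_le_mul hL8 hL8
      have h9 : (L * L) * 64 * 8 ≤ (L * L) * (L * L) * L :=
        Nat.mul_le_mul (Nat.mul_le_mul_left _ h8) hL8
      have h10 : L * 8 ≤ L * L := Nat.mul_le_mul_left _ hL8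
      omega
    · intro x hx
      exact ne_of_lt (mem_pairs.1 hx)
    · rintro ⟨a, b⟩ hx ⟨c, e⟩ hy h
      rw [mem_pairs] at hx hy
      simp only [id] at h
      rw [Sym2.eq_iff] at h
      simp only at hx hy
      rcases h with ⟨rfl, rfl⟩ | ⟨rfl, rfl⟩
      · rfl
      · exact absurd hx (lt_asymm hy)
  · intro k hk
    constructor
    · intro h
      exact absurd h (notMem_empty k)
    · rintro ⟨f, hf⟩
      exact absurd hf (complete_none _ (2 ^ r) _ rfl _)

theorem main_q (S : Finset ℕ) (hS : ∀ k ∈ S, 1 ≤ k) (q : ℕ) (hq : S.sup id + 30 ≤ q) :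
    ∃ (V : Type) (_ : Fintype V) (G : SimpleGraph V), G.Connected ∧
      (2 ^ q ≤ Fintype.card V ∧ Fintype.card V + G.edgeSet.ncard ≤ 32 ^ q) ∧
      ∀ k, 1 ≤ k → (k ∈ S ↔ ∃ f : V → ℕ, IsSeq G k f) := by
  rcases S.eq_empty_or_nonempty with h | h
  · subst h
    exact empty_q q (by omega)
  · refine nonempty_q S hS h q ?_
    intro k hk
    have : k ≤ S.sup id := le_sup (f := id) hk
    omega

end Pool.Agent.helper14.HS
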